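import Pool.Agent.J4H64.MQ.Def

set_option autoImplicit false

/-! Project MQ (MP_b53add_lc), piece CR2: the worst case (after `J4H46.MP.t_QCR`). -/

namespace Pool.Agent.J4H64.MQ

open Finset Filter Pool.Agent.J4H64.MC Pool.Agent.J4H64.MN Pool.Agent.J4H64.MO Pool.Agent.J4H64.MP

/-- eventually `C n^η ≤ n^η1` -/
theorem evC {η η1 : ℝ} (h : η < η1) (C : ℝ) :
    ∀ᶠ n : ℕ in atTop, C * (n : ℝ) ^ η ≤ (n : ℝ) ^ η1 := by
  have h1 : Tendsto (fun n : ℕ => (n : ℝ) ^ (η1 - η)) atTop atTop :=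
    (tendsto_rpow_atTop (by linarith)).comp tendsto_natCast_atTop_atTop
  filter_upwards [h1.eventually_ge_atTop C, eventually_ge_atTop 1] with n hn hn1
  have hp : (0 : ℝ) < n := by exact_mod_cast hn1
  have : (n : ℝ) ^ η1 = (n : ℝ) ^ (η1 - η) * (n : ℝ) ^ η := by
    rw [← Real.rpow_add hp]; congr 1; ring
  rw [this]
  exact mul_le_mul_of_nonneg_right hn (Real.rpow_nonneg hp.le _)

theorem sixteenth {k : ℕ} (hk : 3 ≤ k) {x : ℝ} (hx : 0 ≤ x) :
    x ^ (1 / ((k : ℝ) + 1)) / 4 ≤ (x / 2 ^ (k + 2)) ^ (1 / ((k : ℝ) + 1)) := by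
  rw [Real.div_rpow hx (by positivity)]
  have hk1 : (3 : ℝ) ≤ k := by exact_mod_cast hk
  have h1 : ((2 : ℝ) ^ (k + 2)) ^ (1 / ((k : ℝ) + 1)) ≤ 4 := by
    rw [← Real.rpow_natCast, ← Real.rpow_mul (by norm_num)]
    have : ((k + 2 : ℕ) : ℝ) * (1 / ((k : ℝ) + 1)) ≤ 2 := by
      push_cast
      rw [mul_one_div, div_le_iff₀ (by linarith)]
      linarith
    calc (2 : ℝ) ^ (((k + 2 : ℕ) : ℝ) * (1 / ((k : ℝ) + 1))) ≤ (2 : ℝ) ^ (2 : ℝ) :=
          Real.rpow_le_rpow_of_exponent_le (by norm_num) this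
      _ = 4 := by norm_num
  have h2 : 0 < ((2 : ℝ) ^ (k + 2)) ^ (1 / ((k : ℝ) + 1)) := by positivity
  exact div_le_div_of_nonneg_left (Real.rpow_nonneg hx _) h2 h1

theorem expo3 {k : ℕ} (hk : 3 ≤ k) {c : ℝ} (hc : 0 < c) {n : ℕ} (B : ℝ) (hB : 0 < B) :
    (2 : ℝ) ^ (c / 4 * ((n : ℝ) ^ k / B) ^ (1 / ((k : ℝ) + 1)) / Real.log n ^ 3) ≤
      (2 : ℝ) ^ (c * ((n : ℝ) ^ k / (((2 : ℕ) : ℝ) ^ (k + 2) * B)) ^
        (1 / ((k : ℝ) + 1)) / Real.log n ^ 3) := by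
  apply Real.rpow_le_rpow_of_exponent_le (by norm_num)
  have hl : 0 ≤ Real.log n := Real.log_natCast_nonneg n
  have h3 : 0 ≤ Real.log n ^ 3 := by positivity
  apply div_le_div_of_nonneg_right _ h3
  have e : (n : ℝ) ^ k / (((2 : ℕ) : ℝ) ^ (k + 2) * B) = (n : ℝ) ^ k / B / 2 ^ (k + 2) := by
    push_cast
    rw [div_div]
    congr 1
    ring
  rw [e]
  have := sixteenth hk (x := (n : ℝ) ^ k / B) (by positivity)
  have h5 : c / 4 * ((n : ℝ) ^ k / B) ^ (1 / ((k : ℝ) + 1)) =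
    c * (((n : ℝ) ^ k / B) ^ (1 / ((k : ℝ) + 1)) / 4) := by ring
  rw [h5]
  exact mul_le_mul_of_nonneg_left this hc.le

theorem t_CR2 : S_CR2 := by
  classical
  intro hF hC hN k hk
  obtain ⟨c, hc, h⟩ := hF k hk
  refine ⟨c / 4, by positivity, fun η hη => ?_⟩
  have hk1 : (3 : ℝ) ≤ k := by exact_mod_cast hk
  have hη' : max η 0 < (k : ℝ) := max_lt hη (by linarith)
  obtain ⟨η1, hη1, hη2⟩ := exists_between hη'
  filter_upwards [h η1 hη2, evC hη1 (2 ^ (k + 2)), eventually_ge_atTop 1] with n hn hnC hn1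
  have hn1' : (1 : ℝ) ≤ n := by exact_mod_cast hn1
  have hmono : (n : ℝ) ^ η ≤ (n : ℝ) ^ (max η 0) :=
    Real.rpow_le_rpow_of_exponent_le hn1' (le_max_left _ _)
  have hone : (1 : ℝ) ≤ (n : ℝ) ^ (max η 0) := Real.one_le_rpow hn1' (le_max_right _ _)
  have hcond : ∀ B : ℕ, (B : ℝ) ≤ (n : ℝ) ^ (max η 0) →
      (((2 : ℕ) : ℝ)) ^ (k + 2) * B ≤ (n : ℝ) ^ η1 := by
    intro B hB
    refine le_trans ?_ hnC
    push_cast
    gcongr
  refine ⟨fun C hCS => ?_, fun F hFS hb => ?_⟩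
  · have key : ∀ B : ℕ, 1 ≤ B → (B : ℝ) ≤ (n : ℝ) ^ η → C.NotCost B →
        (2 : ℝ) ^ (c / 4 * ((n : ℝ) ^ k / B) ^ (1 / ((k : ℝ) + 1)) / Real.log n ^ 3) ≤ C.m := by
      intro B hB hBn hcost
      by_contra hlt
      push Not at hlt
      obtain ⟨Λ, hΛ, hΛ', D, hD, -⟩ := hn 2 B (by norm_num) hB (hcond B (hBn.trans hmono))
      have h1 := hD C hcost (lt_of_lt_of_le hlt (expo3 hk hc B (by exact_mod_cast hB)))
      have h2 : {l | C.Acc (D l) ↔ Sat (D l)} = Set.univ := by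
        ext l
        simp [hCS (D l)]
      rw [h2, Set.ncard_univ, Nat.card_eq_fintype_card] at h1
      push_cast at h1
      linarith
    obtain ⟨h1, h2⟩ := hC (Clause n k) C
    refine ⟨fun hb => ?_, fun hin hb => ?_, fun d hd hb => ?_⟩
    · have := key (2 ^ C.nots) Nat.one_le_two_pow (by push_cast; exact hb) h1
      push_cast at this
      exact this
    · have := key (C.nots + 1) (by omega) (by push_cast; exact hb) (hN _ C hin)
      push_cast at this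
      exact this
    · have := key ((C.nots + 1) ^ d) (Nat.one_le_pow _ _ (by omega)) (by push_cast; exact hb)
        (h2 d hd)
      push_cast at this
      exact this
  · by_contra hlt
    push Not at hlt
    obtain ⟨B, hB⟩ : ∃ B : ℕ, B = max F.nots 1 := ⟨_, rfl⟩
    have hB1 : 1 ≤ B := by rw [hB]; exact le_max_right _ _
    have hB2 : F.nots ≤ B := by rw [hB]; exact le_max_left _ _
    have hB3 : B ≤ F.nots + 1 := by rw [hB]; omega
    have hBn : (B : ℝ) ≤ (n : ℝ) ^ (max η 0) := by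
      rw [hB, Nat.cast_max, Nat.cast_one]
      exact max_le (hb.trans hmono) hone
    have hB0 : (0 : ℝ) < B := by exact_mod_cast hB1
    obtain ⟨Λ, hΛ, hΛ', D, -, hD⟩ := hn 2 B (by norm_num) hB1 (hcond B hBn)
    have hle : (2 : ℝ) ^ (c / 4 * ((n : ℝ) ^ k / (F.nots + 1)) ^ (1 / ((k : ℝ) + 1)) /
          Real.log n ^ 3) ≤
        (2 : ℝ) ^ (c / 4 * ((n : ℝ) ^ k / B) ^ (1 / ((k : ℝ) + 1)) / Real.log n ^ 3) := by
      apply Real.rpow_le_rpow_of_exponent_le (by norm_num)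
      have hlog : 0 ≤ Real.log n ^ 3 := pow_nonneg (Real.log_nonneg hn1') 3
      apply div_le_div_of_nonneg_right _ hlog
      apply mul_le_mul_of_nonneg_left _ (by positivity)
      apply Real.rpow_le_rpow (by positivity) _ (by positivity)
      have hB3' : (B : ℝ) ≤ F.nots + 1 := by exact_mod_cast hB3
      exact div_le_div_of_nonneg_left (by positivity) hB0 hB3'
    have h1 := hD F hB2 (lt_of_lt_of_le (lt_of_lt_of_le hlt hle) (expo3 hk hc B hB0))
    have h2 : {l | F.eval (D l) = true ↔ Sat (D l)} = Set.univ := by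
      ext l
      simp [hFS (D l)]
    rw [h2, Set.ncard_univ, Nat.card_eq_fintype_card] at h1
    push_cast at h1
    linarith

end Pool.Agent.J4H64.MQ
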