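import Pool.Agent.J4H64.MP.Def

set_option autoImplicit false

/-! Circuits and formulas with few NOT gates for `k`-CNF-SAT, advantage `1 / a`: the statements of
the pieces. -/

namespace Pool.Agent.J4H64.MQ

open Finset Filter Pool.Agent.H560R2 Pool.Agent.H520R2 Pool.Agent.J4H64.MC Pool.Agent.J4H64.MN
open Pool.Agent.J4H64.MO Pool.Agent.J4H64.MP

/-- the final statement for devices, with advantage `1 / a` -/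
def Fin2 {k : ℕ} (V : Dev k) : Prop :=
  ∃ c : ℝ, 0 < c ∧ ∀ η : ℝ, η < k → ∀ᶠ n : ℕ in atTop,
    ∀ a B : ℕ, 1 ≤ a → 1 ≤ B → (a : ℝ) ^ (k + 2) * B ≤ (n : ℝ) ^ η →
    ∃ (Λ : Type) (_ : Fintype Λ) (_ : Nonempty Λ) (D : Λ → Clause n k → Bool),
      ∀ C : V.T n, V.cost C B →
        (V.size C : ℝ) < (2 : ℝ) ^ (c * ((n : ℝ) ^ k / ((a : ℝ) ^ (k + 2) * B)) ^
          (1 / ((k : ℝ) + 1)) / Real.log n ^ 3) →
        ({l | V.acc C (D l) ↔ Sat (D l)}.ncard : ℝ) < (1 / 2 + 1 / a) * Fintype.card Λ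

/-- piece PFIN2 -/
def S_PFIN2 : Prop := ∀ k : ℕ, 3 ≤ k → ∀ V : Dev k, V.Par → Fin2 V

/-- the final statement -/
def S_FIN2 : Prop :=
  ∀ k : ℕ, 3 ≤ k → ∃ c : ℝ, 0 < c ∧ ∀ η : ℝ, η < k → ∀ᶠ n : ℕ in atTop,
    ∀ a B : ℕ, 1 ≤ a → 1 ≤ B → (a : ℝ) ^ (k + 2) * B ≤ (n : ℝ) ^ η →
    ∃ (Λ : Type) (_ : Fintype Λ) (_ : Nonempty Λ) (D : Λ → Clause n k → Bool),
      (∀ C : NCirc (Clause n k), C.NotCost B →
        (C.m : ℝ) < (2 : ℝ) ^ (c * ((n : ℝ) ^ k / ((a : ℝ) ^ (k + 2) * B)) ^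
          (1 / ((k : ℝ) + 1)) / Real.log n ^ 3) →
        ({l | C.Acc (D l) ↔ Sat (D l)}.ncard : ℝ) < (1 / 2 + 1 / a) * Fintype.card Λ) ∧
      ∀ F : Form (Clause n k), F.nots ≤ B →
        (F.size : ℝ) < (2 : ℝ) ^ (c * ((n : ℝ) ^ k / ((a : ℝ) ^ (k + 2) * B)) ^
          (1 / ((k : ℝ) + 1)) / Real.log n ^ 3) →
        ({l | F.eval (D l) = true ↔ Sat (D l)}.ncard : ℝ) < (1 / 2 + 1 / a) * Fintype.card Λ

/-- piece RES2 (use `B' = 4 B` in `Fin2`, as in `Pool/Agent/J4H23/MP/Qres.lean`) -/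
def S_RES2 : Prop := (∀ k : ℕ, 3 ≤ k → Fin2 (dev k)) → S_FIN2

/-- all NOT gates are at the inputs -/
def AtInputs {I : Type} (C : NCirc I) : Prop := ∀ j, C.kind j = 2 → C.predG j = ∅

/-- piece NNF -/
def S_NNF : Prop := ∀ (I : Type) (C : NCirc I), AtInputs C → C.NotCost (C.nots + 1)

/-- the worst case -/
def S_COR2 : Prop :=
  ∀ k : ℕ, 3 ≤ k → ∃ c : ℝ, 0 < c ∧ ∀ η : ℝ, η < k → ∀ᶠ n : ℕ in atTop,
    (∀ C : NCirc (Clause n k), (∀ x, C.Acc x ↔ Sat x) →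
      ((2 : ℝ) ^ C.nots ≤ (n : ℝ) ^ η →
        (2 : ℝ) ^ (c * ((n : ℝ) ^ k / 2 ^ C.nots) ^ (1 / ((k : ℝ) + 1)) / Real.log n ^ 3) ≤
          C.m) ∧
      (AtInputs C → (C.nots : ℝ) + 1 ≤ (n : ℝ) ^ η →
        (2 : ℝ) ^ (c * ((n : ℝ) ^ k / (C.nots + 1)) ^ (1 / ((k : ℝ) + 1)) / Real.log n ^ 3) ≤
          C.m) ∧
      ∀ d : ℕ, C.Depth d → ((C.nots : ℝ) + 1) ^ d ≤ (n : ℝ) ^ η →
        (2 : ℝ) ^ (c * ((n : ℝ) ^ k / ((C.nots : ℝ) + 1) ^ d) ^ (1 / ((k : ℝ) + 1)) /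
          Real.log n ^ 3) ≤ C.m) ∧
    ∀ F : Form (Clause n k), (∀ x, F.eval x = true ↔ Sat x) → (F.nots : ℝ) ≤ (n : ℝ) ^ η →
      (2 : ℝ) ^ (c * ((n : ℝ) ^ k / (F.nots + 1)) ^ (1 / ((k : ℝ) + 1)) / Real.log n ^ 3) ≤
        F.size

/-- piece CR2 (use `a = 2`, as in `Pool/Agent/J4H46/MP/Qcr.lean`) -/
def S_CR2 : Prop := S_FIN2 → S_COST → S_NNF → S_COR2

end Pool.Agent.J4H64.MQ
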