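import Pool.Agent.J4H64.MQ.Def
import Pool.Agent.J4H23.MP.Qres

set_option autoImplicit false

/-! Piece RES2 of project MQ (after `Pool/Agent/J4H23/MP/Qres.lean`). -/

namespace Pool.Agent.J4H64.MQ

open Finset Filter Pool.Agent.J4H64.MC Pool.Agent.J4H64.MN Pool.Agent.J4H64.MO Pool.Agent.J4H64.MP
open Pool.Agent.J4H23.MP

theorem expo2 {k : ℕ} {c : ℝ} (hc : 0 < c) {n : ℕ} (a B : ℕ) :
    (2 : ℝ) ^ (c / 4 * ((n : ℝ) ^ k / ((a : ℝ) ^ (k + 2) * B)) ^ (1 / ((k : ℝ) + 1)) /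
        Real.log n ^ 3) ≤
      (2 : ℝ) ^ (c * ((n : ℝ) ^ k / ((a : ℝ) ^ (k + 2) * ((4 * B : ℕ) : ℝ))) ^
        (1 / ((k : ℝ) + 1)) / Real.log n ^ 3) := by
  apply Real.rpow_le_rpow_of_exponent_le (by norm_num)
  have hl : 0 ≤ Real.log n := Real.log_natCast_nonneg n
  have h3 : 0 ≤ Real.log n ^ 3 := by positivity
  apply div_le_div_of_nonneg_right _ h3
  have e : (n : ℝ) ^ k / ((a : ℝ) ^ (k + 2) * ((4 * B : ℕ) : ℝ)) =
      (n : ℝ) ^ k / ((a : ℝ) ^ (k + 2) * B) / 4 := by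
    push_cast
    rw [div_div]
    congr 1
    ring
  rw [e]
  have := quarter (k := k) (x := (n : ℝ) ^ k / ((a : ℝ) ^ (k + 2) * B)) (by positivity)
  have h5 : c / 4 * ((n : ℝ) ^ k / ((a : ℝ) ^ (k + 2) * B)) ^ (1 / ((k : ℝ) + 1)) =
    c * (((n : ℝ) ^ k / ((a : ℝ) ^ (k + 2) * B)) ^ (1 / ((k : ℝ) + 1)) / 4) := by ring
  rw [h5]
  exact mul_le_mul_of_nonneg_left this hc.le

theorem t_RES2 : S_RES2 := by
  intro hD k hk
  obtain ⟨c, hc, h⟩ := hD k hk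
  refine ⟨c / 4, by positivity, fun η hη => ?_⟩
  have h1 : η < (η + k) / 2 := by linarith
  have h2 : (η + k) / 2 < k := by linarith
  filter_upwards [h ((η + k) / 2) h2, ev4 h1] with n hn hn4 a B ha hB hBn
  have hB4 : 1 ≤ 4 * B := by omega
  have hBn4 : (a : ℝ) ^ (k + 2) * ((4 * B : ℕ) : ℝ) ≤ (n : ℝ) ^ ((η + k) / 2) := by
    push_cast
    calc (a : ℝ) ^ (k + 2) * (4 * (B : ℝ)) = 4 * ((a : ℝ) ^ (k + 2) * B) := by ring
      _ ≤ 4 * (n : ℝ) ^ η := by linarith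
      _ ≤ _ := hn4
  obtain ⟨Λ, hΛ, hΛ', D, hD2⟩ := hn a (4 * B) ha hB4 hBn4
  refine ⟨Λ, hΛ, hΛ', D, fun C hC hm => ?_, fun F hF hm => ?_⟩
  · have hcost : (dev k).cost (Sum.inl C : (dev k).T n) (4 * B) := by
      obtain ⟨lvl, h3, h4⟩ := hC
      exact ⟨lvl, h3, h4.trans (by omega)⟩
    exact hD2 (Sum.inl C) hcost (lt_of_lt_of_le hm (expo2 hc a B))
  · have hcost : (dev k).cost (Sum.inr F : (dev k).T n) (4 * B) := by
      show 5 * F.nots + 2 ≤ 2 * (4 * B)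
      omega
    exact hD2 (Sum.inr F) hcost (lt_of_lt_of_le hm (expo2 hc a B))

end Pool.Agent.J4H64.MQ
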